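import Pool.Agent.Lib.MP_9afe8f_co.Final
import Pool.Agent.Lib.MP_9afe8f_co.Lower

namespace Pool.Agent.Results.MP_9afe8f_co.QuadraticExponent

open Pool.Agent.Lib.MP_9afe8f_co

/-- elementary estimate -/
lemma exp_le (n : ℕ) : ((n ^ 2 + 36 * n) / 8 + 4) + ((n ^ 2 + 36 * n) / 8 + 4)
    ≤ (n ^ 2 + 36 * n) / 4 + 8 := by
  omega

lemma area (n : ℕ) (T : SimpleGraph (Fin n)) (hT : T.IsTree)
    (hdeg : ∀ v, (T.neighborSet v).ncard ≤ 5) :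
    ∃ W H : ℕ, HasGridDrawing T W H ∧ W * H ≤ 2 ^ ((n ^ 2 + 36 * n) / 4 + 8) := by
  have h := tree_drawing hT hdeg
  rw [Fintype.card_fin] at h
  refine ⟨_, _, h, ?_⟩
  rw [← pow_add]
  exact Nat.pow_le_pow_right (by norm_num) (exp_le n)

lemma small (c : ℝ) (hc : 0 < c) : ∃ N : ℕ, ∀ n ≥ N,
    (2 : ℝ) ^ ((n ^ 2 + 36 * n) / 4 + 8) < c * 2 ^ (n ^ 2) * 2 ^ (n ^ 2) := by
  obtain ⟨m, hm⟩ := exists_pow_lt_of_lt_one hc (by norm_num : (1 / 2 : ℝ) < 1)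
  refine ⟨m + 28, fun n hn => ?_⟩
  have h1 : (n ^ 2 + 36 * n) / 4 + 8 + m ≤ n ^ 2 + n ^ 2 := by
    have h2 : (n ^ 2 + 36 * n) / 4 ≤ (n ^ 2 + 36 * n) / 4 := le_rfl
    have h3 : 28 * n ≤ n ^ 2 := by nlinarith
    have h4 : n ≤ n ^ 2 := by nlinarith
    have h5 : (n ^ 2 + 36 * n) ≤ 4 * (n ^ 2 + n ^ 2) - 4 * (8 + m) := by
      have : 4 * (8 + m) + (n ^ 2 + 36 * n) ≤ 4 * (n ^ 2 + n ^ 2) := by nlinarith
      omega
    omega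
  have h2 : (2 : ℝ) ^ ((n ^ 2 + 36 * n) / 4 + 8) * 2 ^ m ≤ 2 ^ (n ^ 2) * 2 ^ (n ^ 2) := by
    rw [← pow_add, ← pow_add]
    exact pow_le_pow_right₀ (by norm_num) h1
  have h3 : (2 : ℝ) ^ ((n ^ 2 + 36 * n) / 4 + 8) ≤ (1 / 2) ^ m * (2 ^ (n ^ 2) * 2 ^ (n ^ 2)) := by
    calc (2 : ℝ) ^ ((n ^ 2 + 36 * n) / 4 + 8)
        = (1 / 2) ^ m * ((2 : ℝ) ^ ((n ^ 2 + 36 * n) / 4 + 8) * 2 ^ m) := by
          rw [one_div, inv_pow]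
          field_simp
      _ ≤ _ := by
          apply mul_le_mul_of_nonneg_left h2
          positivity
  calc (2 : ℝ) ^ ((n ^ 2 + 36 * n) / 4 + 8) ≤ (1 / 2) ^ m * (2 ^ (n ^ 2) * 2 ^ (n ^ 2)) := h3
    _ < c * (2 ^ (n ^ 2) * 2 ^ (n ^ 2)) := by
        apply mul_lt_mul_of_pos_right hm
        positivity
    _ = _ := by ring

/-- The area that minimum weight grid drawings of trees of maximum degree at most `5` need: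

* every `n`-vertex tree has a drawing of area at most `2 ^ (n² / 4 + 9 n + 8)`;
* for every `n ≥ 10⁶` some `n`-vertex tree needs area at least `2 ^ (n² / 10¹⁰)`;
* for every `c > 0` and all large `n`, every `n`-vertex tree has a drawing with
  `W * H < c * 2 ^ (n ^ 2) * 2 ^ (n ^ 2)`, so no constant as in the question exists. -/
theorem result :
    (∀ (n : ℕ) (T : SimpleGraph (Fin n)), T.IsTree → (∀ v, (T.neighborSet v).ncard ≤ 5) →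
      ∃ W H : ℕ, HasGridDrawing T W H ∧ W * H ≤ 2 ^ ((n ^ 2 + 36 * n) / 4 + 8)) ∧
    (∀ n : ℕ, 10 ^ 6 ≤ n → ∃ T : SimpleGraph (Fin n), T.IsTree ∧
      (∀ v, (T.neighborSet v).ncard ≤ 5) ∧
      ∀ W H : ℕ, HasGridDrawing T W H → (2 : ℝ) ^ ((n : ℝ) ^ 2 / 10 ^ 10) ≤ (W : ℝ) * H) ∧
    (∀ c : ℝ, 0 < c → ∃ N : ℕ, ∀ n ≥ N, ∀ T : SimpleGraph (Fin n), T.IsTree →
      (∀ v, (T.neighborSet v).ncard ≤ 5) →
      ∃ W H : ℕ, HasGridDrawing T W H ∧ ((W : ℝ) * H) < c * 2 ^ (n ^ 2) * 2 ^ (n ^ 2)) ∧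
    ¬ (∃ c : ℝ, 0 < c ∧ ∃ N : ℕ, ∀ n ≥ N, ∃ T : SimpleGraph (Fin n), T.IsTree ∧
      (∀ v, (T.neighborSet v).ncard ≤ 5) ∧
      ∀ W H : ℕ, HasGridDrawing T W H → c * 2 ^ (n ^ 2) * 2 ^ (n ^ 2) ≤ (W : ℝ) * H) := by
  have key : ∀ c : ℝ, 0 < c → ∃ N : ℕ, ∀ n ≥ N, ∀ T : SimpleGraph (Fin n), T.IsTree →
      (∀ v, (T.neighborSet v).ncard ≤ 5) →
      ∃ W H : ℕ, HasGridDrawing T W H ∧ ((W : ℝ) * H) < c * 2 ^ (n ^ 2) * 2 ^ (n ^ 2) := by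
    intro c hc
    obtain ⟨N, hN⟩ := small c hc
    refine ⟨N, fun n hn T hT hdeg => ?_⟩
    obtain ⟨W, H, h1, h2⟩ := area n T hT hdeg
    refine ⟨W, H, h1, ?_⟩
    have h3 : ((W : ℝ) * H) ≤ 2 ^ ((n ^ 2 + 36 * n) / 4 + 8) := by exact_mod_cast h2
    exact lt_of_le_of_lt h3 (hN n hn)
  refine ⟨area, ?_, key, ?_⟩
  · intro n hn
    exact ⟨LB.tree n, LB.tree_isTree (lt_of_lt_of_le (by norm_num) hn), LB.tree_deg,
      fun W H h => LB.lower_explicit hn h⟩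
  · rintro ⟨c, hc, N, h⟩
    obtain ⟨N', hN'⟩ := key c hc
    obtain ⟨T, hT, hdeg, hT2⟩ := h (max N N') (le_max_left _ _)
    obtain ⟨W, H, h1, h2⟩ := hN' (max N N') (le_max_right _ _) T hT hdeg
    exact absurd (hT2 W H h1) (not_le.2 h2)

end Pool.Agent.Results.MP_9afe8f_co.QuadraticExponent
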